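import Mathlib
import Pool.Agent.P.MP_a6ddc5_al.LC.Lower

set_option autoImplicit false

open Filter Topology MeasureTheory Pointwise

namespace Pool.Agent.Results.MP_a6ddc5_al.GrowthRate

universe u

/-- The weak uniform structure of a real topological vector space `E`: the coarsest uniform
structure making every continuous linear form uniformly continuous. -/
@[reducible] def weakUniformity (E : Type u) [AddCommGroup E] [Module ℝ E] [TopologicalSpace E] :
    UniformSpace E :=
  ⨅ l : E →L[ℝ] ℝ, UniformSpace.comap l inferInstance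

/-- Regularity of an orbit map `o : G → E`.  For `unif = true`: `o` is uniformly continuous for
both the left and the right uniform structure of `G`.  For `unif = false`: `o` is only weakly
continuous. -/
def Regular {G E : Type u} [Group G] [TopologicalSpace G] [AddCommGroup E] [Module ℝ E]
    [TopologicalSpace E] (unif : Bool) (o : G → E) : Prop :=
  if unif then
    ∀ V ∈ 𝓝 (0 : E), ∃ U ∈ 𝓝 (1 : G), ∀ a ∈ U, ∀ g : G,
      o (a * g) - o g ∈ V ∧ o (g * a) - o g ∈ V
  else ∀ l : E →L[ℝ] ℝ, Continuous fun g : G => l (o g)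

/-- The representation `ρ` on the cone `C` is of cobounded type. -/
def Cobounded {G E : Type u} [Group G] [AddCommGroup E] [Module ℝ E] [TopologicalSpace E]
    [IsTopologicalAddGroup E] (C : ConvexCone ℝ E) (ρ : G →* (E →L[ℝ] E)) : Prop :=
  ∃ φ : E →L[ℝ] ℝ, ∀ l : E →L[ℝ] ℝ, ∃ (n : ℕ) (g : Fin n → G), ∀ x ∈ C,
    l x ≤ ∑ i, φ (ρ (g i)⁻¹ x) ∧ -l x ≤ ∑ i, φ (ρ (g i)⁻¹ x)

/-- Some nonzero vector of `C` has a bounded orbit and a regular orbit map. -/
def LocallyBounded {G E : Type u} [Group G] [TopologicalSpace G] [AddCommGroup E] [Module ℝ E]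
    [TopologicalSpace E] [IsTopologicalAddGroup E] (unif : Bool) (C : ConvexCone ℝ E)
    (ρ : G →* (E →L[ℝ] E)) : Prop :=
  ∃ x ∈ C, x ≠ 0 ∧ Bornology.IsVonNBounded ℝ (Set.range fun g : G => ρ g x) ∧
    Regular unif fun g : G => ρ g x

/-- Every representation of `G` on a weakly complete proper convex cone `C` of a real locally
convex Hausdorff space that is of locally bounded type (with a regular orbit map) and of
cobounded type has a nonzero `y ∈ C` with `k y ≤ r y` for all `k ∈ K` (in the order of `C`)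
which, when `r = 1`, is fixed by `G`.  For `r = 1` this is the fixed-point property for cones. -/
def QuasiFixed (G : Type u) [Group G] [TopologicalSpace G] (unif : Bool) (K : Set G) (r : ℝ) :
    Prop :=
  ∀ (E : Type u) [AddCommGroup E] [Module ℝ E] [TopologicalSpace E] [IsTopologicalAddGroup E]
    [ContinuousSMul ℝ E] [LocallyConvexSpace ℝ E] [T2Space E]
    (C : ConvexCone ℝ E) (ρ : G →* (E →L[ℝ] E)),
    (C : Set E) ∩ (-(C : Set E)) = {0} →
    @IsComplete E (weakUniformity E) (C : Set E) →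
    (∀ g : G, ∀ x ∈ C, ρ g x ∈ C) →
    LocallyBounded unif C ρ → Cobounded C ρ →
    ∃ y ∈ C, y ≠ 0 ∧ (∀ k ∈ K, r • y - ρ k y ∈ C) ∧ (r = 1 → ∀ g : G, ρ g y = y)

/-- The growth rate of a compactly generated, second countable, locally compact group is its
least displacement constant on cones; in particular (`r = 1`) such a group has the fixed-point
property for cones exactly when its growth is subexponential. -/
theorem result (G : Type u) [Group G] [TopologicalSpace G] [IsTopologicalGroup G] [T2Space G]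
    [LocallyCompactSpace G] [SecondCountableTopology G] [MeasurableSpace G] [BorelSpace G]
    (m : Measure G) [m.IsHaarMeasure] (K : Set G) (hc : IsCompact K) (hs : K⁻¹ = K)
    (hn : K ∈ 𝓝 (1 : G)) (hg : Subgroup.closure K = ⊤) (unif : Bool) (r : ℝ) (hr : 1 ≤ r) :
    QuasiFixed G unif K r ↔
      limsup (fun n : ℕ => m (K ^ n) ^ (1 / (n : ℝ))) atTop ≤ ENNReal.ofReal r := by
  have hK := Pool.Agent.P.MP_a6ddc5_al.LC.good_of_closure hc hs hn hg
  obtain ⟨h1, h2⟩ := Pool.Agent.P.MP_a6ddc5_al.LC.tfae hK m hr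
  constructor
  · intro h
    cases unif
    · refine h2 (Pool.Agent.P.MP_a6ddc5_al.LC.qfu_of_qf ?_)
      intro E _ _ _ _ _ _ _ C ρ a1 a2 a3 a4 a5
      obtain ⟨y, b1, b2, b3, -⟩ := h E C ρ a1 a2 a3 a4 a5
      exact ⟨y, b1, b2, b3⟩
    · refine h2 ?_
      intro E _ _ _ _ _ _ _ C ρ a1 a2 a3 a4 a5
      obtain ⟨y, b1, b2, b3, -⟩ := h E C ρ a1 a2 a3 a4 a5
      exact ⟨y, b1, b2, b3⟩
  · intro h E _ _ _ _ _ _ _ C ρ a1 a2 a3 a4 a5
    have key : ∃ y ∈ C, y ≠ 0 ∧ ∀ k ∈ K, r • y - ρ k y ∈ C := by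
      cases unif
      · exact h1 h E C ρ a1 a2 a3 a4 a5
      · exact Pool.Agent.P.MP_a6ddc5_al.LC.qfu_of_qf (h1 h) E C ρ a1 a2 a3 a4 a5
    obtain ⟨y, b1, b2, b3⟩ := key
    refine ⟨y, b1, b2, b3, fun hr1 => ?_⟩
    subst hr1
    exact Pool.Agent.P.MP_a6ddc5_al.LC.fixed_of_quasi hK a1 a3 b3

end Pool.Agent.Results.MP_a6ddc5_al.GrowthRate
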