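import Mathlib
import Pool.Agent.P.MP_a6ddc5_al.Sch.Low

set_option autoImplicit false

namespace Pool.Agent.Results.MP_a6ddc5_al.Schreier

universe u

/-- The weak uniform structure of a real topological vector space `E`: the coarsest uniform
structure making every continuous linear form uniformly continuous. -/
@[reducible] def weakUniformity (E : Type u) [AddCommGroup E] [Module ℝ E] [TopologicalSpace E] :
    UniformSpace E :=
  ⨅ l : E →L[ℝ] ℝ, UniformSpace.comap l inferInstance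

/-- The cone `C` has a compact base. -/
def CompactBase {E : Type u} [AddCommGroup E] [Module ℝ E] [TopologicalSpace E]
    (C : ConvexCone ℝ E) : Prop :=
  ∃ ψ : E →L[ℝ] ℝ, (∀ x ∈ C, x ≠ 0 → 0 < ψ x) ∧ IsCompact {x | x ∈ C ∧ ψ x = 1}

/-- The representation `ρ` on the cone `C` is of cobounded type. -/
def Cobounded {G E : Type u} [Group G] [AddCommGroup E] [Module ℝ E] [TopologicalSpace E]
    [IsTopologicalAddGroup E] (C : ConvexCone ℝ E) (ρ : G →* (E →L[ℝ] E)) : Prop :=
  ∃ φ : E →L[ℝ] ℝ, ∀ l : E →L[ℝ] ℝ, ∃ (n : ℕ) (g : Fin n → G), ∀ x ∈ C,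
    l x ≤ ∑ i, φ (ρ (g i)⁻¹ x) ∧ -l x ≤ ∑ i, φ (ρ (g i)⁻¹ x)

/-- Some nonzero vector of `C` has a bounded orbit and is fixed by `H`. -/
def BoundedAt {G E : Type u} [Group G] [AddCommGroup E] [Module ℝ E] [TopologicalSpace E]
    [IsTopologicalAddGroup E] (H : Subgroup G) (C : ConvexCone ℝ E) (ρ : G →* (E →L[ℝ] E)) :
    Prop :=
  ∃ x ∈ C, x ≠ 0 ∧ Bornology.IsVonNBounded ℝ (Set.range fun g : G => ρ g x) ∧ ∀ h ∈ H, ρ h x = x

/-- Every representation of `G` on a weakly complete proper convex cone `C` of a real locally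
convex Hausdorff space that is of cobounded type and has a nonzero vector of `C` with bounded
orbit that is fixed by `H` has a nonzero `y ∈ C` with `k y ≤ r y` for all `k ∈ S` (in the order
of `C`) which, when `r = 1`, is fixed by `G`.  For `small = true` only cones with a compact base
in second countable spaces are tested.  For trivial `H`, `r = 1` and `small = false` this is the
fixed-point property for cones. -/
def QuasiFixed (G : Type u) [Group G] (H : Subgroup G) (S : Finset G) (r : ℝ) (small : Bool) :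
    Prop :=
  ∀ (E : Type u) [AddCommGroup E] [Module ℝ E] [TopologicalSpace E] [IsTopologicalAddGroup E]
    [ContinuousSMul ℝ E] [LocallyConvexSpace ℝ E] [T2Space E]
    (C : ConvexCone ℝ E) (ρ : G →* (E →L[ℝ] E)),
    (small = true → SecondCountableTopology E ∧ CompactBase C) →
    (C : Set E) ∩ (-(C : Set E)) = {0} →
    @IsComplete E (weakUniformity E) (C : Set E) →
    (∀ g : G, ∀ x ∈ C, ρ g x ∈ C) →
    BoundedAt H C ρ → Cobounded C ρ →
    ∃ y ∈ C, y ≠ 0 ∧ (∀ k ∈ S, r • y - ρ k y ∈ C) ∧ (r = 1 → ∀ g : G, ρ g y = y)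

/-- The products of at most `n` elements of `S`. -/
def ball {G : Type u} [Group G] (S : Finset G) (n : ℕ) : Set G :=
  {g | ∃ w : List G, w.length ≤ n ∧ (∀ s ∈ w, s ∈ S) ∧ w.prod = g}

/-- For a conjugation-invariant family `F` of subgroups of a finitely generated group such that
every limit of members contains a member, the fixed-point property for cones relative to all
members of `F` is decided by the uniform growth rate of the coset spaces. -/
theorem result (G : Type u) [Group G] (S : Finset G) (hs : ∀ s ∈ S, s⁻¹ ∈ S)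
    (hg : Subgroup.closure (S : Set G) = ⊤) (F : Set (Subgroup G))
    (conj : ∀ H ∈ F, ∀ g : G, H.map (MulAut.conj g).toMonoidHom ∈ F)
    (lim : ∀ K : Subgroup G, (∀ T : Finset G, ∃ H ∈ F, ∀ g ∈ T, g ∈ H ↔ g ∈ K) →
      ∃ H ∈ F, H ≤ K)
    (r : ℝ) (hr : 1 ≤ r) (small : Bool) :
    (∀ H ∈ F, QuasiFixed G H S r small) ↔
      ∀ t : ℝ, r < t → ∃ A : ℝ, ∀ H ∈ F, ∀ n : ℕ,
        (((fun g : G => (g : G ⧸ H)) '' ball S n).ncard : ℝ) ≤ A * t ^ n := by
  constructor
  · intro h
    refine Pool.Agent.P.MP_a6ddc5_al.Sch.growth_of_qb hs hg F (fun H a g => ⟨_, conj H a g⁻¹, ?_⟩)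
      lim hr fun H a => ?_
    · rintro _ ⟨x, hx, rfl⟩
      simpa [mul_assoc] using hx
    · intro E _ _ _ _ _ _ _ C ρ a0 a1 a2 a3 a4 a5
      obtain ⟨y, b1, b2, b3, -⟩ := h H a E C ρ (fun _ => a0) a1 a2 a3 a4 a5
      exact ⟨y, b1, b2, b3⟩
  · intro h H a E _ _ _ _ _ _ _ C ρ _ a1 a2 a3 a4 a5
    obtain ⟨y, b1, b2, b3⟩ := Pool.Agent.P.MP_a6ddc5_al.Sch.qf_of_growth H hs hg hr
      (fun t ht => (h t ht).imp fun A hA => hA H a) E C ρ a1 a2 a3 a4 a5
    refine ⟨y, b1, b2, b3, fun hr1 => ?_⟩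
    subst hr1
    exact Pool.Agent.P.MP_a6ddc5_al.Sch.fixed_of_quasi hs hg a1 a3 b3

end Pool.Agent.Results.MP_a6ddc5_al.Schreier
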