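import Mathlib
import Pool.Agent.P.MP_a6ddc5_al.Main

set_option autoImplicit false

open Filter Topology

namespace Pool.Agent.Results.MP_a6ddc5_al.Subexp

universe u

/-- The weak uniform structure of a real topological vector space `E`: the coarsest uniform
structure making every continuous linear form uniformly continuous. -/
@[reducible] def weakUniformity (E : Type u) [AddCommGroup E] [Module ℝ E] [TopologicalSpace E] :
    UniformSpace E :=
  ⨅ l : E →L[ℝ] ℝ, UniformSpace.comap l inferInstance

/-- The fixed-point property for cones: every representation of `G` on a weakly complete proper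
convex cone of a real locally convex Hausdorff space that is of locally bounded type and of
cobounded type has a nonzero fixed point in the cone. -/
def HasConeFixedPointProperty (G : Type u) [Group G] : Prop :=
  ∀ (E : Type u) [AddCommGroup E] [Module ℝ E] [TopologicalSpace E] [IsTopologicalAddGroup E]
    [ContinuousSMul ℝ E] [LocallyConvexSpace ℝ E] [T2Space E]
    (C : ConvexCone ℝ E) (ρ : G →* (E →L[ℝ] E)),
    (C : Set E) ∩ (-(C : Set E)) = {0} →
    @IsComplete E (weakUniformity E) (C : Set E) →
    (∀ g : G, ∀ x ∈ C, ρ g x ∈ C) →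
    (∃ x ∈ C, x ≠ 0 ∧ Bornology.IsVonNBounded ℝ (Set.range fun g : G => ρ g x)) →
    (∃ φ : E →L[ℝ] ℝ, ∀ l : E →L[ℝ] ℝ, ∃ (n : ℕ) (g : Fin n → G), ∀ x ∈ C,
      l x ≤ ∑ i, φ (ρ (g i)⁻¹ x) ∧ -l x ≤ ∑ i, φ (ρ (g i)⁻¹ x)) →
    ∃ x ∈ C, x ≠ 0 ∧ ∀ g : G, ρ g x = x

/-- The ball of radius `n` about the identity in the word metric of `S`. -/
def ball {G : Type u} [Group G] (S : Finset G) (n : ℕ) : Set G :=
  {g | ∃ w : List G, w.length ≤ n ∧ (∀ s ∈ w, s ∈ S ∨ s⁻¹ ∈ S) ∧ w.prod = g}

/-- A group with the fixed-point property for cones has subexponential growth with respect to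
every finite subset `S`, in particular with respect to every finite generating set:
`|B(n)| ^ (1 / n)` tends to `1`. -/
theorem result (G : Type u) [Group G] (hG : HasConeFixedPointProperty G) (S : Finset G) :
    Tendsto (fun n : ℕ => ((ball S n).ncard : ℝ) ^ (1 / (n : ℝ))) atTop (𝓝 1) :=
  Pool.Agent.P.MP_a6ddc5_al.growth_tendsto G hG S

end Pool.Agent.Results.MP_a6ddc5_al.Subexp
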